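import Mathlib

namespace Pool.Agent.Results.MP_0a1a8e_nt.Common

/-- `m` is antipalindromic in base `b`: its base-`b` digits `a_0, …, a_n` satisfy
`a_j + a_{n-j} = b - 1` for every `j ≤ n`. -/
def Antipal (b m : ℕ) : Prop :=
  ∀ j < (Nat.digits b m).length,
    (Nat.digits b m).getD j 0 + (Nat.digits b m).getD ((Nat.digits b m).length - 1 - j) 0 = b - 1

lemma ofDigits_top (B s : ℕ) (hB : 1 ≤ B) :
    Nat.ofDigits B (List.replicate s (B - 1)) + 1 = B ^ s := by
  induction s with
  | zero => simp
  | succ s ih =>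
    rw [List.replicate_succ, Nat.ofDigits_cons, pow_succ, ← ih]
    obtain ⟨k, rfl⟩ : ∃ k, B = k + 1 := ⟨B - 1, by omega⟩
    simp only [Nat.add_sub_cancel]
    ring

lemma block (B s : ℕ) (hB : 2 ≤ B) (hs : 1 ≤ s) : Antipal B ((B ^ s - 1) * B ^ s) := by
  have h1 : (B ^ s - 1) * B ^ s =
      Nat.ofDigits B (List.replicate s 0 ++ List.replicate s (B - 1)) := by
    rw [Nat.ofDigits_append, List.length_replicate, ← ofDigits_top B s (by omega)]
    simp [mul_comm]
  have h2 : Nat.digits B ((B ^ s - 1) * B ^ s) =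
      List.replicate s 0 ++ List.replicate s (B - 1) := by
    rw [h1]
    refine Nat.digits_ofDigits B (by omega) _ ?_ ?_
    · intro l hl
      rcases List.mem_append.1 hl with h | h <;>
        · have := List.eq_of_mem_replicate h
          omega
    · intro h
      have hne : List.replicate s (B - 1) ≠ [] := by
        intro hh
        have := congrArg List.length hh
        simp at this
        omega
      rw [List.getLast_append_of_ne_nil _ hne]
      have := List.eq_of_mem_replicate (List.getLast_mem hne)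
      omega
  have key : ∀ j < s + s, (List.replicate s 0 ++ List.replicate s (B - 1)).getD j 0 =
      if j < s then 0 else B - 1 := by
    intro j hj
    split_ifs with h
    · rw [List.getD_append _ _ _ _ (by simpa using h)]
      simp [List.getD_eq_getElem?_getD, List.getElem?_replicate, h]
    · rw [List.getD_append_right _ _ _ _ (by simpa using h)]
      have : j - s < s := by omega
      simp [List.getD_eq_getElem?_getD, List.getElem?_replicate, this]
  intro j hj
  rw [h2] at hj ⊢
  have hl : (List.replicate s 0 ++ List.replicate s (B - 1)).length = s + s := by simp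
  rw [hl] at hj ⊢
  rw [key j hj, key _ (by omega)]
  split_ifs <;> omega

def tbl : List (List ℕ) :=
  [[],
   [0],
   [0, 0],
   [0, 0, 666],
   [0, 0, 12, 6],
   [0, 0, 2, 6372, 12],
   [0, 0, 10, 925, 1230, 20],
   [0, 0, 12, 57942, 12, 12, 30],
   [0, 0, 42, 21, 4032, 52766, 43490045690, 42],
   [0, 0, 56, 4, 204, 16, 596062600, 24, 56],
   [0, 0, 3276, 72, 90, 7092, 90492054970590, 18, 734438692703165562, 72],
   [0, 0, 2110, 40, 90, 20, 20, 30, 79205, 40, 90],
   [0, 0, 2422838, 66, 1808212105244103978870, 110, 12760, 195313470, 8964395902, 58233694239632912, 604593, 110],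
   [0, 0, 15696, 6, 6, 8952, 1660680, 24, 441653100, 24, 36, 60, 132],
   [0, 0, 52, 36946, 78, 9152, 59816652025, 970632, 7132580, 202593196208, 1432907658, 2686385, 2740452, 156],
   [0, 0, 42, 1288611772, 27846, 168, 1015, 42, 28, 56, 7182, 70, 9702, 84, 182]]

def dg (b : ℕ) : ℕ → ℕ → List ℕ
  | 0, _ => []
  | f + 1, m => if m = 0 then [] else m % b :: dg b f (m / b)

def good (b m : ℕ) : Bool :=
  let L := dg b 80 m
  decide (Nat.ofDigits b L = m) && L.all (fun x => decide (x < b)) &&
    decide (L.getLast? ≠ some 0) &&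
    (List.range L.length).all
      (fun j => decide (L.getD j 0 + L.getD (L.length - 1 - j) 0 = b - 1))

lemma of_good {b m : ℕ} (hb : 1 < b) (h : good b m = true) : Antipal b m := by
  simp only [good, Bool.and_eq_true, decide_eq_true_eq, List.all_eq_true, List.mem_range] at h
  obtain ⟨⟨⟨h1, h2⟩, h3⟩, h4⟩ := h
  have : Nat.digits b m = dg b 80 m := by
    conv_lhs => rw [← h1]
    refine Nat.digits_ofDigits b hb _ h2 fun hne hh => h3 ?_
    rw [List.getLast?_eq_some_getLast hne, hh]
  unfold Antipal
  rw [this]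
  exact h4

lemma table : ∀ b < 16, ∀ a < b, 2 ≤ a →
    0 < (tbl.getD b []).getD a 0 ∧ good a ((tbl.getD b []).getD a 0) = true ∧
      good b ((tbl.getD b []).getD a 0) = true := by
  decide +kernel

theorem result :
    (Antipal 6 43490045690 ∧ Antipal 8 43490045690) ∧
      (∀ a b : ℕ, 2 ≤ a → a < b → b ≤ 15 → ∃ m : ℕ, 0 < m ∧ Antipal a m ∧ Antipal b m) ∧
      ∀ c r s : ℕ, 2 ≤ c → 1 ≤ r → 1 ≤ s →
        ∃ m : ℕ, 0 < m ∧ Antipal (c ^ r) m ∧ Antipal (c ^ s) m := by
  refine ⟨⟨of_good (by norm_num) (by decide +kernel), of_good (by norm_num) (by decide +kernel)⟩,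
    fun a b ha hab hb => ?_, fun c r s hc hr hs => ?_⟩
  · obtain ⟨h1, h2, h3⟩ := table b (by omega) a hab ha
    exact ⟨_, h1, of_good (by omega) h2, of_good (by omega) h3⟩
  have hp : ∀ t, 1 ≤ t → 2 ≤ c ^ t := fun t ht =>
    le_trans hc (by simpa using Nat.pow_le_pow_right (by omega : 0 < c) ht)
  have h2 := hp (r * s) (Nat.mul_pos hr hs)
  refine ⟨(c ^ (r * s) - 1) * c ^ (r * s), Nat.mul_pos (by omega) (by omega), ?_, ?_⟩
  · have := block (c ^ r) s (hp r hr) hs
    rwa [← pow_mul] at this
  · have := block (c ^ s) r (hp s hs) hr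
    rwa [← pow_mul, mul_comm s r] at this

end Pool.Agent.Results.MP_0a1a8e_nt.Common
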